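import Pool.Agent.Helper69_MT.Pee
import Pool.Agent.MT100B.Stmts

/-! MT100B, module PEE: there is no polynomial relation, multilinear in the exterior squares, between
the translates of the fundamental matrix, with coefficients polynomial in `w` and `log w`.
Adapted from `Pool/Agent/Helper69_MT/Pee.lean`. -/

set_option autoImplicit false

namespace Pool.Agent.MT100B.H71

open Matrix Polynomial Filter Topology Pool.Agent.MT100 Pool.Agent.MT100.H69

/-! ### polynomials in the second variable -/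

theorem PL_ex {r : ℕ} {A : ℝ → ℝ → Matrix (Fin r) (Fin r) ℝ}
    (hA : ∀ i j, PL fun u x => A u x i j) (β α : AI r) :
    PL fun u x => ex (A u x) β α := by
  have h := ((hA β.1.1 α.1.1).mul (hA β.1.2 α.1.2)).add
    ((PL.const (-1)).mul ((hA β.1.1 α.1.2).mul (hA β.1.2 α.1.1)))
  refine h.congr (Eventually.of_forall fun u x => ?_)
  simp only [ex]
  ring

theorem an_ex {r : ℕ} {A : ℝ → Matrix (Fin r) (Fin r) ℝ} {w : ℝ}
    (hA : ∀ i j, AnalyticAt ℝ (fun x => A x i j) w) (β α : AI r) :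
    AnalyticAt ℝ (fun x => ex (A x) β α) w := by
  simp only [ex]
  exact ((hA _ _).mul (hA _ _)).sub ((hA _ _).mul (hA _ _))

theorem sum_even_odd (a : ℕ → ℝ) (x : ℝ) (n : ℕ) :
    ∑ m ∈ Finset.range (2 * n), a m * x ^ m =
      ∑ k ∈ Finset.range n, a (2 * k) * (x ^ 2) ^ k +
        x * ∑ k ∈ Finset.range n, a (2 * k + 1) * (x ^ 2) ^ k := by
  induction n with
  | zero => simp
  | succ n ih =>
    rw [show 2 * (n + 1) = 2 * n + 1 + 1 by ring, Finset.sum_range_succ, Finset.sum_range_succ, ih,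
      Finset.sum_range_succ, Finset.sum_range_succ, pow_succ x (2 * n), pow_mul]
    ring

theorem MerG_pow {f : ℝ → ℝ} (hf : MerG f) (n : ℕ) : MerG fun u => f u ^ n := by
  induction n with
  | zero => simpa using MerG.const 1
  | succ n ih => simpa only [pow_succ] using MerG.mul ih hf

/-- a relation at `x = 1/√u` holds at `x = -1/√u` -/
theorem PL_zero_of_sqrt (hS : SqrStmt) {F : ℝ → ℝ → ℝ} (hF : PL F)
    (h : ∀ᶠ u in 𝓝[>] (0 : ℝ), F u (Real.sqrt u)⁻¹ = 0) :
    ∀ᶠ u in 𝓝[>] (0 : ℝ), F u (-(Real.sqrt u)⁻¹) = 0 := by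
  obtain ⟨M, p, h1, h2, h3⟩ := hF
  have key : ∀ u : ℝ, 0 < u → ∀ e : ℝ, e ^ 2 = 1 → (p u).eval (e * (Real.sqrt u)⁻¹) =
      ∑ k ∈ Finset.range (M + 1), (p u).coeff (2 * k) * u⁻¹ ^ k + e * (Real.sqrt u *
        ∑ k ∈ Finset.range (M + 1), (p u).coeff (2 * k + 1) * u⁻¹ ^ (k + 1)) := by
    intro u hu e he
    have hs : Real.sqrt u ≠ 0 := (Real.sqrt_pos.mpr hu).ne'
    have hss : Real.sqrt u ^ 2 = u := Real.sq_sqrt hu.le
    have h5 : (e * (Real.sqrt u)⁻¹) ^ 2 = u⁻¹ := by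
      rw [mul_pow, he, one_mul, inv_pow, hss]
    have h6 : e * (Real.sqrt u)⁻¹ = e * (Real.sqrt u * u⁻¹) := by
      have h60 : u⁻¹ = (Real.sqrt u)⁻¹ * (Real.sqrt u)⁻¹ := by
        rw [← mul_inv, ← pow_two, hss]
      rw [h60, ← mul_assoc (Real.sqrt u), mul_inv_cancel₀ hs, one_mul]
    rw [eval_eq_sum_range' (show (p u).natDegree < 2 * (M + 1) by
      have := h1 u
      omega), sum_even_odd, h5, h6, mul_assoc, mul_assoc, Finset.mul_sum]
    congr 4
    funext k
    rw [pow_succ]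
    ring
  have h4 := hS (fun u => ∑ k ∈ Finset.range (M + 1), (p u).coeff (2 * k) * u⁻¹ ^ k)
    (fun u => ∑ k ∈ Finset.range (M + 1), (p u).coeff (2 * k + 1) * u⁻¹ ^ (k + 1))
    (MerG.sum _ _ fun k _ => MerG.mul (h2 _) (MerG_pow MerG.inv _))
    (MerG.sum _ _ fun k _ => MerG.mul (h2 _) (MerG_pow MerG.inv _)) (by
      filter_upwards [h, h3, self_mem_nhdsWithin] with u h5 h6 h7
      rw [h6] at h5
      have h8 := key u h7 1 (by norm_num)
      rw [one_mul, one_mul, h5] at h8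
      exact h8.symm)
  filter_upwards [h4.1, h4.2, h3, self_mem_nhdsWithin] with u h5 h6 h7 h8
  rw [h7, show -(Real.sqrt u)⁻¹ = -1 * (Real.sqrt u)⁻¹ by ring, key u h8 (-1) (by norm_num), h5,
    h6]
  ring

/-! ### the relation -/

/-- the relation, with `log w` replaced by `log w - a`, the factor `j` multiplied by `Y` and the
other ones by `exp (a N)` -/
noncomputable def TT (D : Dat) {ι : Type} [Fintype ι] [DecidableEq ι] (κ : ι → ℕ)
    (c : (ι → AI (ro D)) → (ι → AI (ro D)) → Polynomial (Polynomial ℝ)) (j : ι) (a : ℝ)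
    (Y : Matrix (Fin (ro D)) (Fin (ro D)) ℝ) (w : ℝ) : ℝ :=
  ∑ β : ι → AI (ro D), ∑ α : ι → AI (ro D), evalEval w (Real.log w - a) (c β α) *
    ∏ i, ex (W D (w - κ i) * (if i = j then Y else en (ro D) a)) (β i) (α i)

section

variable (D : Dat) {ι : Type} [Fintype ι] [DecidableEq ι] (κ : ι → ℕ)
  (c : (ι → AI (ro D)) → (ι → AI (ro D)) → Polynomial (Polynomial ℝ)) (j : ι)

theorem W_an (hA : AnaStmt) (k : ℕ) (w : ℝ) (hw : (D.lam : ℝ) + k < w) (a b : Fin (ro D)) :
    AnalyticAt ℝ (fun x => W D (x - k) a b) w := by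
  have h1 := (hA D (w - k) (by linarith)).1 a b
  have h2 : AnalyticAt ℝ (fun x : ℝ => x - (k : ℝ)) w := analyticAt_id.sub analyticAt_const
  exact h1.comp_of_eq h2 rfl

theorem TT_an (hA : AnaStmt) (hκ : ∀ i, i ≠ j → κ i < κ j) (a : ℝ)
    (Y : Matrix (Fin (ro D)) (Fin (ro D)) ℝ) (w : ℝ) (hw : (D.lam : ℝ) + κ j < w) :
    AnalyticAt ℝ (TT D κ c j a Y) w := by
  have hlam : (0 : ℝ) < D.lam := by exact_mod_cast D.lam_pos
  have hw0 : 0 < w := by
    have : (0 : ℝ) ≤ κ j := Nat.cast_nonneg _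
    linarith
  have hki : ∀ i, (D.lam : ℝ) + κ i < w := by
    intro i
    by_cases h : i = j
    · rw [h]; exact hw
    · have : (κ i : ℝ) < κ j := by exact_mod_cast hκ i h
      linarith
  unfold TT
  refine Finset.analyticAt_fun_sum _ fun β _ => Finset.analyticAt_fun_sum _ fun α _ => ?_
  refine (an_evalEval analyticAt_id ((analyticAt_log hw0).sub analyticAt_const) _).mul ?_
  refine Finset.analyticAt_fun_prod _ fun i _ => ?_
  refine an_ex (fun b d => an_mmul (A := fun x => W D (x - κ i))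
    (B := fun _ => if i = j then Y else en (ro D) a) (fun b d => W_an D hA (κ i) w (hki i) b d)
    (fun b d => analyticAt_const) b d) _ _

/-- the matrices near infinity -/
noncomputable def TrM (i : ι) (u : ℝ) : Matrix (Fin (ro D)) (Fin (ro D)) ℝ :=
  (Tr D (κ i)).map (fun f => ev f u)

theorem TrM_mer (hT : TraStmt) (hE : MT100.EvaStmt) (i : ι) (a b : Fin (ro D)) :
    MerG fun u => TrM D κ i u a b := by
  obtain ⟨K, N, q, B, hS⟩ := hT D (κ i)
  obtain ⟨δ, hδ, h1⟩ := hE.1 _ (hS.gH a b)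
  have h2 := hE.2.2.2 (Tr D (κ i) a b) (δ / 2) (by positivity)
    (h1 (δ / 2) (by rw [abs_of_pos (by positivity)]; linarith)) 0
    (by rw [abs_zero]; positivity)
  exact MerG.of_an h2

/-- the relation as a function of `u = 1/w` and of the logarithm -/
noncomputable def FF (Y : Matrix (Fin (ro D)) (Fin (ro D)) ℝ) (u x : ℝ) : ℝ :=
  ∑ β : ι → AI (ro D), ∑ α : ι → AI (ro D), evalEval u⁻¹ (-1 * x) (c β α) *
    ∏ i, ex (TrM D κ i u * en (ro D) x * (if i = j then Y else 1)) (β i) (α i)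

theorem FF_PL (hT : TraStmt) (hE : MT100.EvaStmt) (Y : Matrix (Fin (ro D)) (Fin (ro D)) ℝ)
    {G : ℝ → ℝ → ℝ} (hG : PL G) : PL fun u x => FF D κ c j Y u (G u x) := by
  unfold FF
  refine PL.sum _ _ fun β _ => PL.sum _ _ fun α _ => PL.mul ?_ ?_
  · exact PL.evalEval MerG.inv ((PL.const (-1)).mul hG) _
  · refine PL.prod _ _ fun i _ => PL_ex (fun a b => ?_) _ _
    refine PL.mmul (fun a b => PL.mmul (fun a b => ?_) (fun a b => PL.en hG a b) a b)
      (fun a b => ?_) a b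
    · exact PL.of_mer (TrM_mer D κ hT hE i a b)
    · exact PL.const _

theorem TT_FF (hV : ValStmt) (Y : Matrix (Fin (ro D)) (Fin (ro D)) ℝ) (a : ℝ) :
    ∀ᶠ u in 𝓝[>] (0 : ℝ), TT D κ c j a (en (ro D) a * Y) u⁻¹ = FF D κ c j Y u (Real.log u + a) := by
  have h1 : ∀ᶠ w : ℝ in atTop, ∀ i, W D (w - κ i) =
      (Tr D (κ i)).map (fun f => ev f w⁻¹) * en (ro D) (-Real.log w) :=
    eventually_all.mpr fun i => hV D (κ i)
  filter_upwards [ev_zero h1] with u hu
  unfold TT FF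
  refine Finset.sum_congr rfl fun β _ => Finset.sum_congr rfl fun α _ => ?_
  have e1 : Real.log u⁻¹ - a = -1 * (Real.log u + a) := by rw [Real.log_inv]; ring
  rw [e1]
  congr 1
  refine Finset.prod_congr rfl fun i _ => ?_
  rw [hu i, inv_inv, Real.log_inv, neg_neg]
  have e2 : (Tr D (κ i)).map (fun f => ev f u) * en (ro D) (Real.log u) *
      (if i = j then en (ro D) a * Y else en (ro D) a) =
      TrM D κ i u * en (ro D) (Real.log u + a) * (if i = j then Y else 1) := by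
    rw [en_add]
    unfold TrM
    split_ifs
    · simp only [Matrix.mul_assoc]
    · simp only [Matrix.mul_assoc, Matrix.mul_one]
  rw [e2]

theorem shift (hL : MT100.LtlStmt) (hV : ValStmt) (hT : TraStmt) (hE : MT100.EvaStmt)
    (Y : Matrix (Fin (ro D)) (Fin (ro D)) ℝ) (a : ℝ)
    (h : ∀ᶠ w in atTop, TT D κ c j a (en (ro D) a * Y) w = 0) (b : ℝ) :
    ∀ᶠ w in atTop, TT D κ c j b (en (ro D) b * Y) w = 0 := by
  have h1 := PL.zero_of_log hL
    (FF_PL D κ c j hT hE Y (G := fun _ x => x + a) (PL.var.add (PL.const a))) (by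
      filter_upwards [TT_FF D κ c j hV Y a, ev_zero h] with u h2 h3
      rw [← h2, h3])
  refine ev_top (P := fun w => TT D κ c j b (en (ro D) b * Y) w = 0) ?_
  filter_upwards [h1, TT_FF D κ c j hV Y b] with u h2 h3
  rw [h3]
  have := h2 (Real.log u + b - a)
  rwa [show Real.log u + b - a + a = Real.log u + b by ring] at this

/-- the relation near the conifold point -/
noncomputable def GG (A : ℝ → Matrix (Fin (ro D)) (Fin (ro D)) ℝ) (v l : Fin (ro D) → ℝ) (a : ℝ)
    (Y : Matrix (Fin (ro D)) (Fin (ro D)) ℝ) (u x : ℝ) : ℝ :=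
  ∑ β : ι → AI (ro D), ∑ α : ι → AI (ro D),
    evalEval (D.lam + κ j + u) (Real.log (D.lam + κ j + u) - a) (c β α) *
    ∏ i, ex (if i = j then
      (A u + x • vecMulVec (fun b => Real.sqrt u * (W D (D.lam + u) *ᵥ v) b) l) * Y else
      W D (D.lam + κ j + u - κ i) * en (ro D) a) (β i) (α i)

theorem GG_PL (hA : AnaStmt) (hκ : ∀ i, i ≠ j → κ i < κ j)
    (A : ℝ → Matrix (Fin (ro D)) (Fin (ro D)) ℝ) (v l : Fin (ro D) → ℝ)
    (h1 : ∀ a i, AnalyticAt ℝ (fun u => A u a i) 0)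
    (h2 : ∀ a, MerG fun u => Real.sqrt u * (W D (D.lam + u) *ᵥ v) a)
    (a : ℝ) (Y : Matrix (Fin (ro D)) (Fin (ro D)) ℝ) {G : ℝ → ℝ → ℝ} (hG : PL G) :
    PL fun u x => GG D κ c j A v l a Y u (G u x) := by
  have hlam : (0 : ℝ) < D.lam := by exact_mod_cast D.lam_pos
  have hadd : AnalyticAt ℝ (fun u : ℝ => (D.lam : ℝ) + κ j + u) 0 :=
    analyticAt_const.add analyticAt_id
  have hpos : (0 : ℝ) < (D.lam : ℝ) + κ j + 0 := by
    have : (0 : ℝ) ≤ κ j := Nat.cast_nonneg _
    linarith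
  unfold GG
  refine PL.sum _ _ fun β _ => PL.sum _ _ fun α _ => PL.mul ?_ ?_
  · refine PL.of_mer (MerG.of_an ?_)
    exact an_evalEval hadd ((hadd.log hpos).sub analyticAt_const) _
  · refine PL.prod _ _ fun i _ => PL_ex (fun b d => ?_) _ _
    by_cases hij : i = j
    · simp only [if_pos hij]
      refine PL.mmul (B := fun _ _ => Y) (fun b d => ?_) (fun b d => PL.const _) b d
      simp only [Matrix.add_apply, Matrix.smul_apply, vecMulVec_apply, smul_eq_mul]
      exact (PL.of_mer (MerG.of_an (h1 b d))).add (hG.mul ((PL.of_mer (h2 b)).mul (PL.const _)))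
    · simp only [if_neg hij]
      refine PL.mmul (A := fun u _ => W D (D.lam + κ j + u - κ i)) (B := fun _ _ => en (ro D) a)
        (fun b d => ?_) (fun b d => PL.const _) b d
      refine PL.of_mer (MerG.of_an ?_)
      have h3 : (κ i : ℝ) < κ j := by exact_mod_cast hκ i hij
      exact (W_an D hA (κ i) ((D.lam : ℝ) + κ j + 0) (by linarith) b d).comp_of_eq hadd rfl

theorem vmv_smul {r : ℕ} (t u : ℝ) (y l : Fin r → ℝ) :
    t • vecMulVec (fun b => u * y b) l = (t * u) • vecMulVec y l := by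
  ext b d
  simp only [Matrix.smul_apply, vecMulVec_apply, smul_eq_mul]
  ring

theorem TT_GG_pos (A : ℝ → Matrix (Fin (ro D)) (Fin (ro D)) ℝ) (v l : Fin (ro D) → ℝ)
    (h3 : ∀ᶠ u in 𝓝[>] (0 : ℝ),
      W D (D.lam + u) = A u + vecMulVec (W D (D.lam + u) *ᵥ v) l)
    (a : ℝ) (Y : Matrix (Fin (ro D)) (Fin (ro D)) ℝ) :
    ∀ᶠ u in 𝓝[>] (0 : ℝ), TT D κ c j a Y (D.lam + κ j + u) =
      GG D κ c j A v l a Y u (Real.sqrt u)⁻¹ := by
  filter_upwards [h3, self_mem_nhdsWithin] with u hu hu0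
  have hu0' : 0 < u := hu0
  have hs : (Real.sqrt u)⁻¹ * Real.sqrt u = 1 := inv_mul_cancel₀ (Real.sqrt_pos.mpr hu0').ne'
  unfold TT GG
  refine Finset.sum_congr rfl fun β _ => Finset.sum_congr rfl fun α _ => ?_
  congr 1
  refine Finset.prod_congr rfl fun i _ => ?_
  by_cases hij : i = j
  · rw [if_pos hij, if_pos hij]
    have e : W D (D.lam + κ j + u - κ i) * Y = (A u + (Real.sqrt u)⁻¹ •
        vecMulVec (fun b => Real.sqrt u * (W D (D.lam + u) *ᵥ v) b) l) * Y := by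
      rw [hij, show (D.lam : ℝ) + κ j + u - κ j = D.lam + u by ring, vmv_smul, hs, one_smul, ← hu]
    rw [e]
  · rw [if_neg hij, if_neg hij]

theorem TT_GG_neg (A : ℝ → Matrix (Fin (ro D)) (Fin (ro D)) ℝ) (v l : Fin (ro D) → ℝ)
    (h3 : ∀ᶠ u in 𝓝[>] (0 : ℝ),
      W D (D.lam + u) = A u + vecMulVec (W D (D.lam + u) *ᵥ v) l)
    (a : ℝ) (Y : Matrix (Fin (ro D)) (Fin (ro D)) ℝ) :
    ∀ᶠ u in 𝓝[>] (0 : ℝ), TT D κ c j a ((1 - (2 : ℝ) • vecMulVec v l) * Y) (D.lam + κ j + u) =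
      GG D κ c j A v l a Y u (-(Real.sqrt u)⁻¹) := by
  filter_upwards [h3, self_mem_nhdsWithin] with u hu hu0
  have hu0' : 0 < u := hu0
  have hs : -(Real.sqrt u)⁻¹ * Real.sqrt u = -1 := by
    rw [neg_mul, inv_mul_cancel₀ (Real.sqrt_pos.mpr hu0').ne']
  unfold TT GG
  refine Finset.sum_congr rfl fun β _ => Finset.sum_congr rfl fun α _ => ?_
  congr 1
  refine Finset.prod_congr rfl fun i _ => ?_
  by_cases hij : i = j
  · rw [if_pos hij, if_pos hij]
    have e : W D (D.lam + κ j + u - κ i) * ((1 - (2 : ℝ) • vecMulVec v l) * Y) =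
        (A u + (-(Real.sqrt u)⁻¹) •
        vecMulVec (fun b => Real.sqrt u * (W D (D.lam + u) *ᵥ v) b) l) * Y := by
      rw [hij, show (D.lam : ℝ) + κ j + u - κ j = D.lam + u by ring, vmv_smul, hs,
        ← Matrix.mul_assoc, Matrix.mul_sub, Matrix.mul_one, Matrix.mul_smul, mul_vecMulVec]
      congr 1
      have e2 : W D (D.lam + u) - (2 : ℝ) • vecMulVec (W D (D.lam + u) *ᵥ v) l =
          (A u + vecMulVec (W D (D.lam + u) *ᵥ v) l) -
            (2 : ℝ) • vecMulVec (W D (D.lam + u) *ᵥ v) l := by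
        rw [← hu]
      rw [e2, two_smul, neg_one_smul]
      abel
    rw [e]
  · rw [if_neg hij, if_neg hij]

theorem coni (hS : SqrStmt) (hA : AnaStmt) (hκ : ∀ i, i ≠ j → κ i < κ j)
    (A : ℝ → Matrix (Fin (ro D)) (Fin (ro D)) ℝ) (v l : Fin (ro D) → ℝ)
    (h1 : ∀ a i, AnalyticAt ℝ (fun u => A u a i) 0)
    (h2 : ∀ a, MerG fun u => Real.sqrt u * (W D (D.lam + u) *ᵥ v) a)
    (h3 : ∀ᶠ u in 𝓝[>] (0 : ℝ),
      W D (D.lam + u) = A u + vecMulVec (W D (D.lam + u) *ᵥ v) l)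
    (a : ℝ) (Y : Matrix (Fin (ro D)) (Fin (ro D)) ℝ)
    (h : ∀ w, (D.lam : ℝ) + κ j < w → TT D κ c j a Y w = 0) :
    ∀ w, (D.lam : ℝ) + κ j < w → TT D κ c j a ((1 - (2 : ℝ) • vecMulVec v l) * Y) w = 0 := by
  refine ident_bot (fun w hw => TT_an D κ c j hA hκ a _ w hw) ?_
  have h4 := PL_zero_of_sqrt hS (GG_PL D κ c j hA hκ A v l h1 h2 a Y PL.var) (by
    filter_upwards [TT_GG_pos D κ c j A v l h3 a Y, self_mem_nhdsWithin] with u h5 h6
    have h6' : 0 < u := h6
    rw [← h5]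
    exact h _ (by linarith))
  filter_upwards [h4, TT_GG_neg D κ c j A v l h3 a Y] with u h5 h6
  rw [h6, h5]

/-- the set of the right multipliers preserving the relation is stable -/
theorem stable (hL : MT100.LtlStmt) (hS : SqrStmt) (hA : AnaStmt) (hV : ValStmt) (hT : TraStmt)
    (hE : MT100.EvaStmt) (hκ : ∀ i, i ≠ j → κ i < κ j)
    (A : ℝ → Matrix (Fin (ro D)) (Fin (ro D)) ℝ) (v l : Fin (ro D) → ℝ)
    (h1 : ∀ a i, AnalyticAt ℝ (fun u => A u a i) 0)
    (h2 : ∀ a, MerG fun u => Real.sqrt u * (W D (D.lam + u) *ᵥ v) a)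
    (h3 : ∀ᶠ u in 𝓝[>] (0 : ℝ),
      W D (D.lam + u) = A u + vecMulVec (W D (D.lam + u) *ᵥ v) l)
    (Y : Matrix (Fin (ro D)) (Fin (ro D)) ℝ)
    (h : ∀ w, (D.lam : ℝ) + κ j < w → TT D κ c j 0 Y w = 0) (a : ℝ) :
    ∀ w, (D.lam : ℝ) + κ j < w → TT D κ c j 0 (refl v l a * Y) w = 0 := by
  have e0 : ∀ Z : Matrix (Fin (ro D)) (Fin (ro D)) ℝ, en (ro D) 0 * Z = Z := fun Z => by
    rw [en_zero, Matrix.one_mul]
  have e1 : ∀ᶠ w in atTop, TT D κ c j 0 (en (ro D) 0 * Y) w = 0 := by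
    rw [e0]
    filter_upwards [eventually_gt_atTop ((D.lam : ℝ) + κ j)] with w hw
    exact h w hw
  have e2 := ident_top (fun w hw => TT_an D κ c j hA hκ a _ w hw)
    (shift D κ c j hL hV hT hE Y 0 e1 a)
  have e3 := coni D κ c j hS hA hκ A v l h1 h2 h3 a _ e2
  have e4 : ((1 - (2 : ℝ) • vecMulVec v l) * (en (ro D) a * Y)) =
      en (ro D) a * (refl v l a * Y) := by
    have e5 : en (ro D) a * en (ro D) (-a) = 1 := by
      rw [← en_add, add_neg_cancel, en_zero]
    unfold refl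
    calc ((1 - (2 : ℝ) • vecMulVec v l) * (en (ro D) a * Y))
        = 1 * ((1 - (2 : ℝ) • vecMulVec v l) * (en (ro D) a * Y)) := by rw [Matrix.one_mul]
      _ = en (ro D) a * (en (ro D) (-a) * (1 - (2 : ℝ) • vecMulVec v l) * en (ro D) a * Y) := by
        rw [← e5]
        simp only [Matrix.mul_assoc]
  rw [e4] at e3
  have e6 : ∀ᶠ w in atTop, TT D κ c j a (en (ro D) a * (refl v l a * Y)) w = 0 := by
    filter_upwards [eventually_gt_atTop ((D.lam : ℝ) + κ j)] with w hw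
    exact e3 w hw
  have e7 := ident_top (fun w hw => TT_an D κ c j hA hκ 0 _ w hw)
    (shift D κ c j hL hV hT hE _ a e6 0)
  rwa [e0] at e7

theorem words (hL : MT100.LtlStmt) (hS : SqrStmt) (hA : AnaStmt) (hV : ValStmt) (hT : TraStmt)
    (hE : MT100.EvaStmt) (hκ : ∀ i, i ≠ j → κ i < κ j)
    (A : ℝ → Matrix (Fin (ro D)) (Fin (ro D)) ℝ) (v l : Fin (ro D) → ℝ)
    (h1 : ∀ a i, AnalyticAt ℝ (fun u => A u a i) 0)
    (h2 : ∀ a, MerG fun u => Real.sqrt u * (W D (D.lam + u) *ᵥ v) a)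
    (h3 : ∀ᶠ u in 𝓝[>] (0 : ℝ),
      W D (D.lam + u) = A u + vecMulVec (W D (D.lam + u) *ᵥ v) l)
    (h : ∀ w, (D.lam : ℝ) + κ j < w → TT D κ c j 0 1 w = 0) (L : List ℝ) :
    ∀ w, (D.lam : ℝ) + κ j < w → TT D κ c j 0 ((L.map (refl v l)).prod) w = 0 := by
  induction L with
  | nil => simpa using h
  | cons a L ih =>
    rw [List.map_cons, List.prod_cons]
    exact stable D κ c j hL hS hA hV hT hE hκ A v l h1 h2 h3 _ ih a

end

/-- splitting off one factor -/
theorem split (D : Dat) {ι : Type} [Fintype ι] [DecidableEq ι] (κ : ι → ℕ)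
    (c : (ι → AI (ro D)) → (ι → AI (ro D)) → Polynomial (Polynomial ℝ)) (j : ι)
    (Y : Matrix (Fin (ro D)) (Fin (ro D)) ℝ) (w : ℝ) :
    TT D κ c j 0 Y w = ∑ β0 : AI (ro D), ∑ α0 : AI (ro D),
      (∑ β' : {i // i ≠ j} → AI (ro D), ∑ α' : {i // i ≠ j} → AI (ro D),
        evalEval w (Real.log w) (c ((Equiv.funSplitAt j (AI (ro D))).symm (β0, β'))
          ((Equiv.funSplitAt j (AI (ro D))).symm (α0, α'))) *
          ∏ i : {i // i ≠ j}, ex (W D (w - κ i)) (β' i) (α' i)) *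
        ex (W D (w - κ j) * Y) β0 α0 := by
  unfold TT
  rw [← (Equiv.funSplitAt j (AI (ro D))).symm.sum_comp, Fintype.sum_prod_type]
  refine Finset.sum_congr rfl fun β0 _ => ?_
  have e1 : ∀ β' : {i // i ≠ j} → AI (ro D), (∑ α : ι → AI (ro D),
      evalEval w (Real.log w - 0) (c ((Equiv.funSplitAt j (AI (ro D))).symm (β0, β')) α) *
        ∏ i, ex (W D (w - κ i) * (if i = j then Y else en (ro D) 0))
          ((Equiv.funSplitAt j (AI (ro D))).symm (β0, β') i) (α i)) =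
      ∑ α0 : AI (ro D), ∑ α' : {i // i ≠ j} → AI (ro D),
        evalEval w (Real.log w) (c ((Equiv.funSplitAt j (AI (ro D))).symm (β0, β'))
          ((Equiv.funSplitAt j (AI (ro D))).symm (α0, α'))) *
          (∏ i : {i // i ≠ j}, ex (W D (w - κ i)) (β' i) (α' i)) *
        ex (W D (w - κ j) * Y) β0 α0 := by
    intro β'
    rw [← (Equiv.funSplitAt j (AI (ro D))).symm.sum_comp, Fintype.sum_prod_type]
    refine Finset.sum_congr rfl fun α0 _ => Finset.sum_congr rfl fun α' _ => ?_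
    rw [sub_zero, Fintype.prod_eq_mul_prod_subtype_ne _ j, if_pos rfl]
    have e2 : ∀ (γ : AI (ro D)) (γ' : {i // i ≠ j} → AI (ro D)),
        (Equiv.funSplitAt j (AI (ro D))).symm (γ, γ') j = γ := by
      intro γ γ'
      simp [Equiv.funSplitAt, Equiv.piSplitAt]
    have e3 : ∀ (γ : AI (ro D)) (γ' : {i // i ≠ j} → AI (ro D)) (i : {i // i ≠ j}),
        (Equiv.funSplitAt j (AI (ro D))).symm (γ, γ') i = γ' i := by
      intro γ γ' i
      simp [Equiv.funSplitAt, Equiv.piSplitAt, i.2]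
    have e4 : (∏ i : {i // i ≠ j}, ex (W D (w - κ i) * (if (i : ι) = j then Y else en (ro D) 0))
        ((Equiv.funSplitAt j (AI (ro D))).symm (β0, β') i)
        ((Equiv.funSplitAt j (AI (ro D))).symm (α0, α') i)) =
        ∏ i : {i // i ≠ j}, ex (W D (w - κ i)) (β' i) (α' i) := by
      refine Finset.prod_congr rfl fun i _ => ?_
      rw [if_neg i.2, en_zero, Matrix.mul_one, e3, e3]
    rw [e4, e2, e2]
    ring
  rw [Finset.sum_congr rfl fun β' _ => e1 β', Finset.sum_comm]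
  refine Finset.sum_congr rfl fun α0 _ => ?_
  rw [Finset.sum_mul]
  refine Finset.sum_congr rfl fun β' _ => ?_
  rw [Finset.sum_mul]

theorem pee_aux (hY : ExmStmt) (hQ : QuaStmt) (hL : MT100.LtlStmt) (hS : SqrStmt) (hC : ConStmt)
    (hCy : CycStmt) (hA : AnaStmt) (hV : ValStmt) (hT : TraStmt) (hE : MT100.EvaStmt) (D : Dat) :
    ∀ (n : ℕ) (ι : Type) [Fintype ι] [DecidableEq ι], Fintype.card ι = n → ∀ (κ : ι → ℕ),
    Function.Injective κ →
    ∀ c : (ι → AI (ro D)) → (ι → AI (ro D)) → Polynomial (Polynomial ℝ),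
      (∀ᶠ w : ℝ in atTop, ∑ β, ∑ α, evalEval w (Real.log w) (c β α) *
        ∏ i, ex (W D (w - κ i)) (β i) (α i) = 0) → c = 0 := by
  intro n
  induction n with
  | zero =>
    intro ι _ _ hι κ hκ c h
    haveI : IsEmpty ι := Fintype.card_eq_zero_iff.mp hι
    funext β α
    refine coef_zero hL _ ?_
    filter_upwards [h] with w hw
    rw [Fintype.sum_unique, Fintype.sum_unique] at hw
    simp only [Finset.univ_eq_empty, Finset.prod_empty, mul_one] at hw
    rw [Subsingleton.elim β default, Subsingleton.elim α default]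
    exact hw
  | succ n ih =>
    intro ι _ _ hι κ hinj c h
    haveI : Nonempty ι := Fintype.card_pos_iff.mp (by omega)
    obtain ⟨j, hj⟩ := Finite.exists_max κ
    have hκ : ∀ i, i ≠ j → κ i < κ j := fun i hi =>
      lt_of_le_of_ne (hj i) fun h => hi (hinj h)
    obtain ⟨v, l, A, h1, h2, hlv, h3⟩ := hC D
    obtain ⟨hv, hl, cc, hcc⟩ := hCy D v l A h1 h2 hlv h3
    have hT1 : ∀ w, TT D κ c j 0 1 w = ∑ β, ∑ α, evalEval w (Real.log w) (c β α) *
        ∏ i, ex (W D (w - κ i)) (β i) (α i) := by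
      intro w
      unfold TT
      simp only [en_zero, ite_self, Matrix.mul_one, sub_zero]
    have hS1 : ∀ w, (D.lam : ℝ) + κ j < w → TT D κ c j 0 1 w = 0 := by
      refine ident_top (fun w hw => TT_an D κ c j hA hκ 0 _ w hw) ?_
      filter_upwards [h] with w hw
      rw [hT1, hw]
    have hW := words D κ c j hL hS hA hV hT hE hκ A v l h1 h2 h3 hS1
    -- the coefficients of the factor `j` vanish
    have hcoef : ∀ w, (D.lam : ℝ) + κ j < w → ∀ β0 α0 : AI (ro D),
        ∑ β' : {i // i ≠ j} → AI (ro D), ∑ α' : {i // i ≠ j} → AI (ro D),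
          evalEval w (Real.log w) (c ((Equiv.funSplitAt j (AI (ro D))).symm (β0, β'))
            ((Equiv.funSplitAt j (AI (ro D))).symm (α0, α'))) *
            ∏ i : {i // i ≠ j}, ex (W D (w - κ i)) (β' i) (α' i) = 0 := by
      intro w hw
      set E : Matrix (AI (ro D)) (AI (ro D)) ℝ := Matrix.of fun α0 β0 =>
        ∑ β' : {i // i ≠ j} → AI (ro D), ∑ α' : {i // i ≠ j} → AI (ro D),
          evalEval w (Real.log w) (c ((Equiv.funSplitAt j (AI (ro D))).symm (β0, β'))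
            ((Equiv.funSplitAt j (AI (ro D))).symm (α0, α'))) *
            ∏ i : {i // i ≠ j}, ex (W D (w - κ i)) (β' i) (α' i) with hE0
      have h5 := hQ D.s v l cc D.two_le hcc hlv hl hv
        (fun γ α0 => (E * ex (W D (w - κ j))) α0 γ) (by
          intro L
          have h6 := hW L w hw
          rw [split] at h6
          refine Eq.trans ?_ h6
          rw [Finset.sum_comm]
          conv_rhs => rw [Finset.sum_comm]
          refine Finset.sum_congr rfl fun α0 _ => ?_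
          rw [hY.1]
          simp only [Matrix.mul_apply, Finset.mul_sum, Finset.sum_mul]
          rw [Finset.sum_comm]
          refine Finset.sum_congr rfl fun β0 _ => ?_
          refine Finset.sum_congr rfl fun γ _ => ?_
          simp only [hE0, Matrix.of_apply]
          simp only [Finset.mul_sum, Finset.sum_mul, mul_assoc])
      have h7 : E * ex (W D (w - κ j)) = 0 := by
        ext α0 γ
        exact congrFun (congrFun h5 γ) α0
      have h8 : IsUnit (W D (w - κ j)).det := (hA D (w - κ j) (by linarith)).2.1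
      have h9 : E = 0 := by
        have h10 : ex (W D (w - κ j)) * ex ((W D (w - κ j))⁻¹) = 1 := by
          rw [← hY.1, Matrix.mul_nonsing_inv _ h8, hY.2.1]
        calc E = E * (ex (W D (w - κ j)) * ex ((W D (w - κ j))⁻¹)) := by rw [h10, Matrix.mul_one]
          _ = 0 := by rw [← Matrix.mul_assoc, h7, Matrix.zero_mul]
      intro β0 α0
      have := congrFun (congrFun h9 α0) β0
      simpa [hE0] using this
    have hcard : Fintype.card {i // i ≠ j} = n := by
      have h20 := Fintype.card_subtype_compl (fun i => i = j)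
      rw [Fintype.card_subtype_eq] at h20
      have h21 : Fintype.card {i // i ≠ j} = Fintype.card {i // ¬ i = j} :=
        Fintype.card_congr (Equiv.refl _)
      rw [h21, h20]
      omega
    have hfin : ∀ β0 α0 : AI (ro D), (fun (β' : {i // i ≠ j} → AI (ro D))
        (α' : {i // i ≠ j} → AI (ro D)) => c ((Equiv.funSplitAt j (AI (ro D))).symm (β0, β'))
            ((Equiv.funSplitAt j (AI (ro D))).symm (α0, α'))) = 0 := by
      intro β0 α0
      refine ih {i // i ≠ j} hcard (fun i => κ i)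
        (fun a b hab => Subtype.ext (hinj hab)) _ ?_
      filter_upwards [eventually_gt_atTop ((D.lam : ℝ) + κ j)] with w hw
      exact hcoef w hw β0 α0
    funext β α
    have h11 := congrFun (congrFun (hfin (β j) (α j)) (fun i => β i)) (fun i => α i)
    have h12 : ∀ γ : ι → AI (ro D), (Equiv.funSplitAt j (AI (ro D))).symm (γ j, fun i => γ i) = γ :=
      fun γ => (Equiv.funSplitAt j (AI (ro D))).symm_apply_apply γ
    simp only [h12] at h11
    exact h11

theorem pee (hY : ExmStmt) (hQ : QuaStmt) (hL : MT100.LtlStmt) (hS : SqrStmt) (hC : ConStmt)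
    (hCy : CycStmt) (hA : AnaStmt) (hV : ValStmt) (hT : TraStmt) (hE : MT100.EvaStmt) :
    PeeStmt := by
  intro D ι _ _ κ hκ c h
  exact pee_aux hY hQ hL hS hC hCy hA hV hT hE D _ ι rfl κ hκ c h

end Pool.Agent.MT100B.H71
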